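import Pool.Agent.G3.A.DDJet
import Pool.Agent.G3.R.SDefs

/-!
# G4 R BdT: functions on a real torus with bounded divided differences in one direction

`f` is defined on `T ∩ ball y₀ r`, `T` invariant under `ℝ ν` and `ℂ a`: `BDT` = continuous, holomorphic in the direction `a`, all divided differences in the direction `ν` are bounded.
`BDT.deriv`: the derivative in the direction `ν` has the same properties (it is a uniform limit of difference quotients, `dd_deriv`).  `bdt_jet`: all derivatives.  `bdt_of_loc`: bounds for near nodes suffice.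
-/

set_option autoImplicit false

open Topology Filter Metric

namespace Pool.Agent.G4.R

open Pool.Agent.G3.R (Nod)

variable {V : Type*} [NormedAddCommGroup V] [NormedSpace ℂ V]

/-- bounded divided differences in the direction `ν` on `T ∩ ball y₀ r` -/
structure BDT (T : Set V) (ν a y₀ : V) (r : ℝ) (f : V → ℂ) : Prop where
  cont : ContinuousOn f (T ∩ ball y₀ r)
  hol : ∀ y ∈ T ∩ ball y₀ r, DifferentiableAt ℂ (fun z : ℂ => f (y + z • a)) 0
  bd : ∀ m : ℕ, ∃ C : ℝ, ∀ y ∈ T ∩ ball y₀ r, ∀ S : Finset ℝ, (∀ s ∈ S, y + (s : ℂ) • ν ∈ ball y₀ r) → S.card = m + 1 →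
    ‖Pool.Agent.G3.A.dd S (fun s : ℝ => f (y + (s : ℂ) • ν))‖ ≤ C

private theorem bdt_isOpen (y ν y₀ : V) (r : ℝ) : IsOpen {s : ℝ | y + (s : ℂ) • ν ∈ ball y₀ r} := by
  have h : Continuous fun s : ℝ => y + (s : ℂ) • ν := continuous_const.add (Complex.continuous_ofReal.smul continuous_const)
  exact isOpen_ball.preimage h

theorem BDT.deriv {T : Set V} {ν a y₀ : V} {r : ℝ} {f : V → ℂ} (h : BDT T ν a y₀ r f) (hT : ∀ y ∈ T, ∀ s : ℝ, y + (s : ℂ) • ν ∈ T) (hTa : ∀ y ∈ T, ∀ z : ℂ, y + z • a ∈ T) :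
    ∃ f' : V → ℂ, BDT T ν a y₀ r f' ∧ ∀ y ∈ T ∩ ball y₀ r, HasDerivAt (fun s : ℝ => f (y + (s : ℂ) • ν)) (f' y) 0 := by
  obtain ⟨C, hC⟩ := h.bd 2
  have h1 : ∀ y ∈ T ∩ ball y₀ r, ∃ v : ℂ, HasDerivAt (fun s : ℝ => f (y + (s : ℂ) • ν)) v 0 ∧ ∀ t : ℝ, y + (t : ℂ) • ν ∈ ball y₀ r → t ≠ 0 →
      ‖(t : ℝ)⁻¹ • (f (y + (t : ℂ) • ν) - f y) - v‖ ≤ C * |t| := by
    intro y hy
    have hI := bdt_isOpen y ν y₀ r
    have h0 : (0 : ℝ) ∈ {s : ℝ | y + (s : ℂ) • ν ∈ ball y₀ r} := by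
      show y + ((0 : ℝ) : ℂ) • ν ∈ ball y₀ r
      rw [Complex.ofReal_zero, zero_smul, add_zero]
      exact hy.2
    obtain ⟨v, hv, hv'⟩ := Pool.Agent.G3.A.dd_deriv hI (g := fun s : ℝ => f (y + (s : ℂ) • ν)) (C := C) (fun S hS hcard => hC y hy S hS hcard) h0
    refine ⟨v, hv, fun t ht ht0 => ?_⟩
    have h2 := hv' t ht ht0
    rw [sub_zero] at h2
    simp only [Complex.ofReal_zero, zero_smul, add_zero] at h2
    exact h2
  choose! f' hf' using h1
  refine ⟨f', ⟨?_, ?_, ?_⟩, fun y hy => (hf' y hy).1⟩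
  · -- continuity
    intro y hy
    refine continuousWithinAt_of_locally_uniform_approx_of_continuousWithinAt hy fun 𝒱 h𝒱 => ?_
    obtain ⟨ε, hε, hε𝒱⟩ := Metric.mem_uniformity_dist.1 h𝒱
    -- a small step
    have hc : Continuous fun q : V × ℝ => q.1 + (q.2 : ℂ) • ν := continuous_fst.add ((Complex.continuous_ofReal.comp continuous_snd).smul continuous_const)
    have hm : ∀ᶠ q in 𝓝 (y, (0 : ℝ)), q.1 + (q.2 : ℂ) • ν ∈ ball y₀ r := by
      refine hc.tendsto (y, (0 : ℝ)) (isOpen_ball.mem_nhds ?_)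
      show y + ((0 : ℝ) : ℂ) • ν ∈ ball y₀ r
      rw [Complex.ofReal_zero, zero_smul, add_zero]
      exact hy.2
    obtain ⟨s, hs, hsb⟩ := Metric.eventually_nhds_iff_ball.1 hm
    obtain ⟨t, ht0, hts, htC⟩ : ∃ t : ℝ, 0 < t ∧ t < s ∧ C * |t| < ε := by
      have hC1 : 0 < |C| + 1 := by positivity
      refine ⟨min (s / 2) (ε / (2 * (|C| + 1))), lt_min (by linarith) (by positivity), ?_, ?_⟩
      · exact (min_le_left _ _).trans_lt (by linarith)
      · have ht := min_le_right (s / 2) (ε / (2 * (|C| + 1)))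
        have h0 : 0 < min (s / 2) (ε / (2 * (|C| + 1))) := lt_min (by linarith) (by positivity)
        rw [abs_of_pos h0]
        have h3 : (|C| + 1) * min (s / 2) (ε / (2 * (|C| + 1))) ≤ (|C| + 1) * (ε / (2 * (|C| + 1))) := mul_le_mul_of_nonneg_left ht hC1.le
        have h4 : (|C| + 1) * (ε / (2 * (|C| + 1))) = ε / 2 := by field_simp
        have h5 : C * min (s / 2) (ε / (2 * (|C| + 1))) ≤ (|C| + 1) * min (s / 2) (ε / (2 * (|C| + 1))) := by
          refine mul_le_mul_of_nonneg_right ?_ h0.le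
          linarith [le_abs_self C]
        linarith
    have hbt : ∀ y' ∈ ball y s, y' + (t : ℂ) • ν ∈ ball y₀ r := fun y' hy' => hsb (y', t) (by
      rw [mem_ball, Prod.dist_eq]
      refine max_lt hy' ?_
      rw [dist_zero_right, Real.norm_eq_abs, abs_of_pos ht0]
      exact hts)
    refine ⟨T ∩ ball y₀ r ∩ ball y s, inter_mem self_mem_nhdsWithin (mem_nhdsWithin_of_mem_nhds (ball_mem_nhds y hs)), fun y' => (t : ℝ)⁻¹ • (f (y' + (t : ℂ) • ν) - f y'), ?_, ?_⟩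
    · have h2 : ContinuousWithinAt (fun y' => f (y' + (t : ℂ) • ν)) (T ∩ ball y₀ r) y := by
        have h3 : ContinuousWithinAt f (T ∩ ball y₀ r) (y + (t : ℂ) • ν) := h.cont _ ⟨hT y hy.1 t, hbt y (mem_ball_self hs)⟩
        have h4 : Tendsto (fun y' : V => y' + (t : ℂ) • ν) (𝓝[T ∩ ball y₀ r] y) (𝓝[T ∩ ball y₀ r] (y + (t : ℂ) • ν)) := by
          refine tendsto_nhdsWithin_iff.2 ⟨?_, ?_⟩
          · have : Continuous fun y' : V => y' + (t : ℂ) • ν := by fun_prop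
            exact (this.tendsto y).mono_left nhdsWithin_le_nhds
          · filter_upwards [inter_mem self_mem_nhdsWithin (mem_nhdsWithin_of_mem_nhds (ball_mem_nhds y hs))] with y' hy'
            exact ⟨hT y' hy'.1.1 t, hbt y' hy'.2⟩
        exact h3.tendsto.comp h4
      exact (h2.sub (h.cont y hy)).const_smul (t⁻¹ : ℝ)
    · intro y' hy'
      refine hε𝒱 ?_
      rw [dist_comm, dist_eq_norm]
      refine ((hf' y' hy'.1).2 t (hbt y' hy'.2) ht0.ne').trans_lt htC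
  · -- holomorphic in the direction `a`
    intro y hy
    have hc : Continuous fun q : ℝ × ℂ => y + q.2 • a + (q.1 : ℂ) • ν := (continuous_const.add (continuous_snd.smul continuous_const)).add ((Complex.continuous_ofReal.comp continuous_fst).smul continuous_const)
    have hm : ∀ᶠ q in 𝓝 ((0 : ℝ), (0 : ℂ)), y + q.2 • a + (q.1 : ℂ) • ν ∈ ball y₀ r := by
      refine hc.tendsto ((0 : ℝ), (0 : ℂ)) (isOpen_ball.mem_nhds ?_)
      show y + (0 : ℂ) • a + ((0 : ℝ) : ℂ) • ν ∈ ball y₀ r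
      rw [Complex.ofReal_zero, zero_smul, zero_smul, add_zero, add_zero]
      exact hy.2
    obtain ⟨s, hs, hsb⟩ := Metric.eventually_nhds_iff_ball.1 hm
    have hb : ∀ t : ℝ, |t| < s → ∀ z ∈ ball (0 : ℂ) s, y + z • a + (t : ℂ) • ν ∈ ball y₀ r := fun t ht z hz => hsb (t, z) (by
      rw [mem_ball, Prod.dist_eq]
      exact max_lt (by rwa [dist_zero_right]) hz)
    have hya : ∀ z ∈ ball (0 : ℂ) s, y + z • a ∈ T ∩ ball y₀ r := fun z hz => ⟨hTa y hy.1 z, by
      have h2 := hb 0 (by rwa [abs_zero]) z hz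
      rwa [Complex.ofReal_zero, zero_smul, add_zero] at h2⟩
    have hdiff : ∀ t : ℝ, |t| < s → DifferentiableOn ℂ (fun z : ℂ => f (y + z • a + (t : ℂ) • ν)) (ball (0 : ℂ) s) := by
      intro t ht z hz
      have h2 := h.hol (y + z • a + (t : ℂ) • ν) ⟨hT _ (hya z hz).1 t, hb t ht z hz⟩
      have h3 : HasDerivAt (fun z' : ℂ => z' - z) 1 z := (hasDerivAt_id z).sub_const z
      have h4 : DifferentiableAt ℂ (fun z' : ℂ => f (y + z • a + (t : ℂ) • ν + (z' - z) • a)) z := by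
        have h5 : DifferentiableAt ℂ (fun z'' : ℂ => f (y + z • a + (t : ℂ) • ν + z'' • a)) (z - z) := by rwa [sub_self]
        exact DifferentiableAt.comp (g := fun z'' : ℂ => f (y + z • a + (t : ℂ) • ν + z'' • a)) (f := fun z' : ℂ => z' - z) z h5 h3.differentiableAt
      refine (h4.congr_of_eventuallyEq (Eventually.of_forall fun z' => ?_)).differentiableWithinAt
      show f (y + z' • a + (t : ℂ) • ν) = f (y + z • a + (t : ℂ) • ν + (z' - z) • a)
      congr 1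
      rw [sub_smul]
      abel
    have h2 : TendstoUniformlyOn (fun (t : ℝ) (z : ℂ) => (t : ℝ)⁻¹ • (f (y + z • a + (t : ℂ) • ν) - f (y + z • a))) (fun z => f' (y + z • a)) (𝓝[≠] 0) (ball (0 : ℂ) s) := by
      rw [Metric.tendstoUniformlyOn_iff]
      intro ε hε
      have h3 : ∀ᶠ t : ℝ in 𝓝[≠] 0, C * |t| < ε := by
        have h4 : Tendsto (fun t : ℝ => C * |t|) (𝓝 0) (𝓝 (C * |(0 : ℝ)|)) := by
          have : Continuous fun t : ℝ => C * |t| := by fun_prop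
          exact this.tendsto 0
        rw [abs_zero, mul_zero] at h4
        exact (h4.eventually (gt_mem_nhds hε)).filter_mono nhdsWithin_le_nhds
      have h4 : ∀ᶠ t : ℝ in 𝓝[≠] 0, |t| < s := by
        have h5 : Tendsto (fun t : ℝ => |t|) (𝓝 0) (𝓝 |(0 : ℝ)|) := continuous_abs.tendsto 0
        rw [abs_zero] at h5
        exact (h5.eventually (gt_mem_nhds hs)).filter_mono nhdsWithin_le_nhds
      filter_upwards [h3, h4, self_mem_nhdsWithin] with t a1 a2 a3 z hz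
      rw [dist_comm, dist_eq_norm]
      exact ((hf' _ (hya z hz)).2 t (hb t a2 z hz) a3).trans_lt a1
    have h3 : DifferentiableOn ℂ (fun z => f' (y + z • a)) (ball (0 : ℂ) s) := by
      refine h2.tendstoLocallyUniformlyOn.differentiableOn ?_ isOpen_ball
      have h4 : ∀ᶠ t : ℝ in 𝓝[≠] 0, |t| < s := by
        have h5 : Tendsto (fun t : ℝ => |t|) (𝓝 0) (𝓝 |(0 : ℝ)|) := continuous_abs.tendsto 0
        rw [abs_zero] at h5
        exact (h5.eventually (gt_mem_nhds hs)).filter_mono nhdsWithin_le_nhds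
      filter_upwards [h4] with t ht
      have h5 := hdiff 0 (by rwa [abs_zero])
      simp only [Complex.ofReal_zero, zero_smul, add_zero] at h5
      exact ((hdiff t ht).sub h5).const_smul (t⁻¹ : ℝ)
    exact h3.differentiableAt (ball_mem_nhds 0 hs)
  · -- the bounds
    intro m
    obtain ⟨C', hC'⟩ := h.bd (m + 1)
    refine ⟨((m + 1 : ℕ) : ℝ) * C', fun y hy S hS hcard => ?_⟩
    have hI := bdt_isOpen y ν y₀ r
    have hg : ∀ s ∈ {s : ℝ | y + (s : ℂ) • ν ∈ ball y₀ r}, HasDerivAt (fun s : ℝ => f (y + (s : ℂ) • ν)) (f' (y + (s : ℂ) • ν)) s := by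
      intro s hs
      have h2 := (hf' (y + (s : ℂ) • ν) ⟨hT y hy.1 s, hs⟩).1
      have h3 : HasDerivAt (fun t : ℝ => t - s) 1 s := (hasDerivAt_id s).sub_const s
      have h4 : HasDerivAt (fun t : ℝ => f (y + (s : ℂ) • ν + (t : ℂ) • ν)) (f' (y + (s : ℂ) • ν)) (s - s) := by rwa [sub_self]
      have h5 := HasDerivAt.scomp (h := fun t : ℝ => t - s) (g₁ := fun t : ℝ => f (y + (s : ℂ) • ν + (t : ℂ) • ν)) s h4 h3
      rw [one_smul] at h5
      refine h5.congr_of_eventuallyEq (Eventually.of_forall fun t => ?_)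
      show f (y + (t : ℂ) • ν) = f (y + (s : ℂ) • ν + ((t - s : ℝ) : ℂ) • ν)
      congr 1
      rw [Complex.ofReal_sub, sub_smul]
      abel
    have h2 := Pool.Agent.G3.A.dd_deriv_bound hI (g := fun s : ℝ => f (y + (s : ℂ) • ν)) (g' := fun s : ℝ => f' (y + (s : ℂ) • ν)) (C := C') hg (S := S) hS
      (fun S' hS' hcard' => hC' y hy S' hS' (by omega))
    rwa [hcard] at h2

/-- all derivatives -/
theorem bdt_jet {T : Set V} {ν a y₀ : V} {r : ℝ} {f : V → ℂ} (h : BDT T ν a y₀ r f) (hT : ∀ y ∈ T, ∀ s : ℝ, y + (s : ℂ) • ν ∈ T) (hTa : ∀ y ∈ T, ∀ z : ℂ, y + z • a ∈ T) :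
    ∃ w : ℕ → V → ℂ, w 0 = f ∧ (∀ j, BDT T ν a y₀ r (w j)) ∧ ∀ j, ∀ y ∈ T ∩ ball y₀ r, HasDerivAt (fun s : ℝ => w j (y + (s : ℂ) • ν)) (w (j + 1) y) 0 := by
  classical
  have step : ∀ p : {g : V → ℂ // BDT T ν a y₀ r g}, ∃ p' : {g : V → ℂ // BDT T ν a y₀ r g}, ∀ y ∈ T ∩ ball y₀ r, HasDerivAt (fun s : ℝ => p.1 (y + (s : ℂ) • ν)) (p'.1 y) 0 := by
    rintro ⟨g, hg⟩
    obtain ⟨g', hg', hder⟩ := hg.deriv hT hTa
    exact ⟨⟨g', hg'⟩, hder⟩
  choose nxt hnxt using step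
  set U : ℕ → {g : V → ℂ // BDT T ν a y₀ r g} := fun n => Nat.rec ⟨f, h⟩ (fun _ p => nxt p) n with hU
  exact ⟨fun j => (U j).1, rfl, fun j => (U j).2, fun j y hy => hnxt (U j) y hy⟩

/-- bounds for nodes near `0` suffice -/
theorem bdt_of_loc {T : Set V} {ν y₀ : V} {r : ℝ} {f : V → ℂ} (hT : ∀ y ∈ T, ∀ s : ℝ, y + (s : ℂ) • ν ∈ T)
    (hloc : ∀ m : ℕ, ∃ η C : ℝ, 0 < η ∧ ∀ y ∈ T ∩ ball y₀ r, ∀ S : Finset ℝ, (∀ s ∈ S, |s| ≤ η) → (∀ s ∈ S, y + (s : ℂ) • ν ∈ ball y₀ r) → S.card = m + 1 →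
      ‖Pool.Agent.G3.A.dd S (fun s : ℝ => f (y + (s : ℂ) • ν))‖ ≤ C) (m : ℕ) :
    ∃ C : ℝ, ∀ y ∈ T ∩ ball y₀ r, ∀ S : Finset ℝ, (∀ s ∈ S, y + (s : ℂ) • ν ∈ ball y₀ r) → S.card = m + 1 → ‖Pool.Agent.G3.A.dd S (fun s : ℝ => f (y + (s : ℂ) • ν))‖ ≤ C := by
  classical
  -- nodes near a node
  have hnear : ∀ m : ℕ, ∃ η C : ℝ, 0 < η ∧ ∀ y ∈ T, ∀ S : Finset ℝ, ∀ s₀ ∈ S, (∀ s ∈ S, |s - s₀| ≤ η) → (∀ s ∈ S, y + (s : ℂ) • ν ∈ ball y₀ r) → S.card = m + 1 →
      ‖Pool.Agent.G3.A.dd S (fun s : ℝ => f (y + (s : ℂ) • ν))‖ ≤ C := by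
    intro m
    obtain ⟨η, C, hη, h⟩ := hloc m
    refine ⟨η, C, hη, fun y hy S s₀ hs₀ hS hSb hcard => ?_⟩
    have hinj : Function.Injective fun t : ℝ => t + s₀ := add_left_injective s₀
    have h1 := h (y + (s₀ : ℂ) • ν) ⟨hT y hy s₀, hSb s₀ hs₀⟩ (S.image fun t => t + -s₀) (fun s hs => ?_) (fun s hs => ?_) ?_
    · have h2 := Pool.Agent.G3.A.dd_image_add S (-s₀) (fun s : ℝ => f (y + (s₀ : ℂ) • ν + (s : ℂ) • ν))
      rw [h2] at h1
      have h3 : Pool.Agent.G3.A.dd S (fun t : ℝ => f (y + (s₀ : ℂ) • ν + ((t + -s₀ : ℝ) : ℂ) • ν)) = Pool.Agent.G3.A.dd S (fun s : ℝ => f (y + (s : ℂ) • ν)) := by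
        refine Pool.Agent.G3.A.dd_congr fun t _ => ?_
        congr 1
        rw [Complex.ofReal_add, Complex.ofReal_neg, add_smul, neg_smul]
        abel
      rwa [h3] at h1
    · obtain ⟨t, ht, rfl⟩ := Finset.mem_image.1 hs
      have := hS t ht
      rwa [sub_eq_add_neg] at this
    · obtain ⟨t, ht, rfl⟩ := Finset.mem_image.1 hs
      have e : y + (s₀ : ℂ) • ν + ((t + -s₀ : ℝ) : ℂ) • ν = y + (t : ℂ) • ν := by
        rw [Complex.ofReal_add, Complex.ofReal_neg, add_smul, neg_smul]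
        abel
      rw [e]
      exact hSb t ht
    · rw [Finset.card_image_of_injective S (add_left_injective (-s₀)), hcard]
  induction m with
  | zero =>
    obtain ⟨η, C, hη, h⟩ := hnear 0
    refine ⟨C, fun y hy S hS hcard => ?_⟩
    obtain ⟨s, rfl⟩ := Finset.card_eq_one.1 hcard
    refine h y hy.1 _ s (Finset.mem_singleton_self s) (fun t ht => ?_) hS hcard
    rw [Finset.mem_singleton] at ht
    rw [ht, sub_self, abs_zero]
    exact hη.le
  | succ m ih =>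
    obtain ⟨C', hC'⟩ := ih
    obtain ⟨η, C, hη, hC⟩ := hnear (m + 1)
    refine ⟨max C (η⁻¹ * (C' + C')), fun y hy S hS hcard => ?_⟩
    by_cases hfar : ∃ a ∈ S, ∃ b ∈ S, η < |b - a|
    · obtain ⟨a, ha, b, hb, hab⟩ := hfar
      have hne : a ≠ b := by
        rintro rfl
        rw [sub_self, abs_zero] at hab
        linarith
      obtain ⟨S₀, hS₀, hbS₀, haS₀⟩ : ∃ S₀ : Finset ℝ, insert a (insert b S₀) = S ∧ b ∉ S₀ ∧ a ∉ S₀ := by
        refine ⟨(S.erase a).erase b, ?_, Finset.notMem_erase b _, fun h => Finset.notMem_erase a S (Finset.mem_of_mem_erase h)⟩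
        rw [Finset.insert_erase (Finset.mem_erase.2 ⟨hne.symm, hb⟩), Finset.insert_erase ha]
      have hcard0 : S₀.card = m := by
        rw [← hS₀, Finset.card_insert_of_notMem, Finset.card_insert_of_notMem hbS₀] at hcard
        · omega
        · rw [Finset.mem_insert, not_or]
          exact ⟨hne, haS₀⟩
      have hsub : ∀ x ∈ S₀, y + ((x : ℝ) : ℂ) • ν ∈ ball y₀ r := fun x hx => hS x (by rw [← hS₀]; exact Finset.mem_insert_of_mem (Finset.mem_insert_of_mem hx))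
      have h1 : ‖Pool.Agent.G3.A.dd (insert b S₀) (fun s : ℝ => f (y + (s : ℂ) • ν))‖ ≤ C' := hC' y hy _ (fun x hx => by
        rcases Finset.mem_insert.1 hx with rfl | hx
        · exact hS x hb
        · exact hsub x hx) (by rw [Finset.card_insert_of_notMem hbS₀, hcard0])
      have h2 : ‖Pool.Agent.G3.A.dd (insert a S₀) (fun s : ℝ => f (y + (s : ℂ) • ν))‖ ≤ C' := hC' y hy _ (fun x hx => by
        rcases Finset.mem_insert.1 hx with rfl | hx
        · exact hS x ha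
        · exact hsub x hx) (by rw [Finset.card_insert_of_notMem haS₀, hcard0])
      rw [← hS₀, Pool.Agent.G3.A.dd_insert_insert hne haS₀ hbS₀, norm_smul, norm_inv, Real.norm_eq_abs]
      refine le_trans ?_ (le_max_right _ _)
      have h3 : |b - a|⁻¹ ≤ η⁻¹ := inv_anti₀ hη hab.le
      have h4 := (norm_sub_le (Pool.Agent.G3.A.dd (insert b S₀) (fun s : ℝ => f (y + (s : ℂ) • ν))) (Pool.Agent.G3.A.dd (insert a S₀) (fun s : ℝ => f (y + (s : ℂ) • ν)))).trans (add_le_add h1 h2)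
      exact mul_le_mul h3 h4 (norm_nonneg _) (inv_nonneg.2 hη.le)
    · push Not at hfar
      obtain ⟨a, ha⟩ : S.Nonempty := Finset.card_pos.1 (by omega)
      exact (hC y hy.1 S a ha (fun b hb => hfar a ha b hb) hS hcard).trans (le_max_left _ _)

end Pool.Agent.G4.R
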