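import Pool.Agent.G4.R.HolD1
import Pool.Agent.G4.R.HolL
import Pool.Agent.G4.A.CmF

/-!
# G4 R HolD: sheets over the whole space are complex differentiable on complex lines off `D`

Here `E = ⊤`.  `sheet_dif_of` (`R/HolD1`) with `cmb_null` and `sheet_lip`.
-/

set_option autoImplicit false

open Topology Filter Metric

namespace Pool.Agent.G4.R

open Pool.Agent.H36.BP (EN fs wd)
open Pool.Agent.H14.PP (IsCone CurveAt Tan)
open Pool.Agent.H62.EF (MN pr)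
open Pool.Agent.AD (Vd Chart Charts IsGerm)
open Pool.Agent.TG
open Pool.Agent.G3
open Pool.Agent.G3.A (Ba Hc Dec Sepa Tht Frm NL Lm CRL Tb ToE CE Sht)
open Pool.Agent.G3.R (Prm Shs)
open Pool.Agent.G3.C (Gc nv nd nv_pr)
open Pool.Agent.G4.A

variable {N k : ℕ} {X : Set (EN N)} {Λ : AddSubgroup (Vd (k + 1))} {u : EN N → Vd (k + 1)} {D B Bad : Set (Vd (k + 1))} {a b : Vd (k + 1)}
  {Γ : AddSubgroup (Vd (k + 1))} {J rW : ℕ} {W : Fin rW → Vd (k + 1) →L[ℂ] ℂ} {SS : Set (Vd (k + 1) → MN N)} {α : Fin J → VForm X Λ u} {c₀ C₀ ρ δ : ℝ}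

theorem sheet_dif (S : DA X Λ u D B Bad a Γ W α c₀ C₀ ρ δ) (hS : Shs X Λ u D a b ⊤ SS) {φ : Vd (k + 1) → MN N} (hφ : φ ∈ SS) {y₀ : Vd (k + 1)} (h0 : y₀ ∉ D) {v : EN N}
    (hv : ‖v‖ = 1) (hv' : pr v = φ y₀) (w : Vd (k + 1)) : DifferentiableAt ℂ (fun ζ : ℂ => nv v (φ (y₀ + ζ • w))) 0 :=
  sheet_dif_of S hS (fun _ h => sheet_lip S hS h) hφ hv hv' w fun _ hC hb _ hv₁ hvg =>
    cmb_null S hC le_rfl S.c_pos hb (x := 0) (by rw [zero_smul, add_zero]; exact h0) hv₁ hvg tendsto_const_nhds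

end Pool.Agent.G4.R
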