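import Pool.Agent.G4.A.CmDefs
import Pool.Agent.G3.R.HolD

/-!
# G4 R HolD1: sheets over the whole space are complex differentiable on complex lines off `D` (preparation)

(Z) (`cmb_zero`) for the three curves over `y₀`, `y₀ + n₁ w`, `y₀ + n₂ w` and the constant coefficients `n₂⁻¹ - n₁⁻¹`, `n₁⁻¹`, `- n₂⁻¹`: the combination is the difference of two difference quotients.
`chart_lip`: `nv v (φ y)` is Lipschitz near a point off `D`, uniformly.  `cmb_dq`: the properties `Cmb`.  `dq_bound`: the bound.  `sheet_dif_of`: the limit, from (Z), (M) and the Lipschitz bound of the sheets.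
-/

set_option autoImplicit false

open Topology Filter Metric

namespace Pool.Agent.G4.R

open Pool.Agent.H36.BP (EN fs wd)
open Pool.Agent.H14.PP (IsCone CurveAt Tan)
open Pool.Agent.H62.EF (MN pr)
open Pool.Agent.AD (Vd Chart Charts IsGerm)
open Pool.Agent.TG
open Pool.Agent.G3
open Pool.Agent.G3.A (Ba Hc Dec Sepa Tht Frm NL Lm CRL Tb ToE CE Sht)
open Pool.Agent.G3.R (Prm Shs nv_lip nv_self mem_tb_top)
open Pool.Agent.G3.C (Gc nv nd nv_pr)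
open Pool.Agent.G4.A

variable {N k : ℕ} {X : Set (EN N)} {Λ : AddSubgroup (Vd (k + 1))} {u : EN N → Vd (k + 1)} {D B Bad : Set (Vd (k + 1))} {a b : Vd (k + 1)}
  {Γ : AddSubgroup (Vd (k + 1))} {J rW : ℕ} {W : Fin rW → Vd (k + 1) →L[ℂ] ℂ} {SS : Set (Vd (k + 1) → MN N)} {α : Fin J → VForm X Λ u} {c₀ C₀ ρ δ : ℝ}

/-- the sheets are uniformly Lipschitz near the points off `D` -/
def Lps (D : Set (Vd (k + 1))) (SS : Set (Vd (k + 1) → MN N)) : Prop :=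
  ∀ δ' : ℝ, 0 < δ' → ∃ r C : ℝ, 0 < r ∧ 0 < C ∧ ∀ φ ∈ SS, ∀ y ∈ Gd D δ', ∀ y', ‖y' - y‖ ≤ r → dist (φ y') (φ y) ≤ C * ‖y' - y‖

/-- the same in the charts `nv v` -/
theorem chart_lip (hL : Lps D SS) {δ' : ℝ} (hδ' : 0 < δ') : ∃ r C : ℝ, 0 < r ∧ 0 < C ∧ ∀ φ ∈ SS, ∀ y₁ ∈ Gd D δ', ∀ v : EN N, ‖v‖ = 1 → pr v = φ y₁ → ∀ y y' : Vd (k + 1),
    ‖y - y₁‖ ≤ r → ‖y' - y₁‖ ≤ r → ‖nv v (φ y') - nv v (φ y)‖ ≤ C * ‖y' - y‖ := by
  obtain ⟨rL, CL, hrL, hCL, hlip⟩ := hL (δ' / 2) (by linarith)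
  have h2C : 0 < 2 * CL := by linarith
  refine ⟨min (min (rL / 2) (δ' / 2)) (1 / (2 * CL)), 10 * CL, lt_min (lt_min (by linarith) (by linarith)) (by positivity), by linarith, ?_⟩
  intro φ hφ y₁ hy₁ v hv hv' y y' hy hy'
  have r1 : min (min (rL / 2) (δ' / 2)) (1 / (2 * CL)) ≤ rL / 2 := (min_le_left _ _).trans (min_le_left _ _)
  have r2 : min (min (rL / 2) (δ' / 2)) (1 / (2 * CL)) ≤ δ' / 2 := (min_le_left _ _).trans (min_le_right _ _)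
  have r3 : min (min (rL / 2) (δ' / 2)) (1 / (2 * CL)) ≤ 1 / (2 * CL) := min_le_right _ _
  have g1 : y₁ ∈ Gd D (δ' / 2) := gd_mono (by linarith) hy₁
  have g2 : y ∈ Gd D (δ' / 2) := gd_mono (δ₂ := δ' - δ' / 2) (by linarith) (gd_near hy₁ (hy.trans r2))
  have one : ∀ z : Vd (k + 1), ‖z - y₁‖ ≤ min (min (rL / 2) (δ' / 2)) (1 / (2 * CL)) → dist (φ z) (pr v) ≤ 1 / 2 := by
    intro z hz
    rw [hv']
    refine (hlip φ hφ y₁ g1 z (hz.trans (by linarith))).trans ?_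
    have h1 : ‖z - y₁‖ ≤ 1 / (2 * CL) := hz.trans r3
    rw [le_div_iff₀ h2C] at h1
    linarith
  have h3 : ‖y' - y‖ ≤ rL := by
    have e : y' - y = (y' - y₁) - (y - y₁) := by abel
    rw [e]
    refine (norm_sub_le _ _).trans ?_
    linarith
  refine (nv_lip hv (one y' hy') (one y hy)).trans ?_
  have h4 := hlip φ hφ y g2 y' h3
  linarith

/-- the base points of the three lines -/
def yy (y₀ w : Vd (k + 1)) : Fin 3 → ℂ × ℂ → Vd (k + 1) := ![fun _ => y₀, fun n => y₀ + n.1 • w, fun n => y₀ + n.2 • w]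

/-- the coefficients -/
noncomputable def cc (n : ℂ × ℂ) : Fin 3 → ℂ := ![n.2⁻¹ - n.1⁻¹, n.1⁻¹, -n.2⁻¹]

/-- the difference quotient in the chart `nv v` -/
noncomputable def qv (φ : Vd (k + 1) → MN N) (a w : Vd (k + 1)) (y₀ : Vd (k + 1)) (v : EN N) (ζ x : ℂ) : EN N :=
  ζ⁻¹ • (nv v (φ (y₀ + ζ • w + x • a)) - nv v (φ (y₀ + x • a)))

theorem cX_eq (φ : Vd (k + 1) → MN N) (w y₀ : Vd (k + 1)) (v : EN N) (n : ℂ × ℂ) (x : ℂ) :
    cX (fun n i (_ : ℂ) => cc n i) (fun i n z => φ (yy y₀ w i n + z • a)) v n x = qv φ a w y₀ v n.1 x - qv φ a w y₀ v n.2 x := by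
  unfold cX qv
  simp only [Fin.sum_univ_three, cc, yy, Matrix.cons_val_zero, Matrix.cons_val_one, Matrix.cons_val]
  module

/-- the bound of a difference quotient near a point off `D` -/
theorem qv_bound {r C : ℝ} {φ : Vd (k + 1) → MN N} {w y₀ y₁ : Vd (k + 1)} {v : EN N}
    (h : ∀ y y' : Vd (k + 1), ‖y - y₁‖ ≤ r → ‖y' - y₁‖ ≤ r → ‖nv v (φ y') - nv v (φ y)‖ ≤ C * ‖y' - y‖) {ζ x : ℂ} (hζ : ζ ≠ 0)
    (h1 : ‖y₀ + x • a - y₁‖ ≤ r) (h2 : ‖y₀ + ζ • w + x • a - y₁‖ ≤ r) : ‖qv φ a w y₀ v ζ x‖ ≤ C * ‖w‖ := by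
  have h3 := h _ _ h1 h2
  have e : y₀ + ζ • w + x • a - (y₀ + x • a) = ζ • w := by abel
  rw [e, norm_smul] at h3
  unfold qv
  rw [norm_smul, norm_inv]
  have hζ' : 0 < ‖ζ‖ := norm_pos_iff.2 hζ
  calc ‖ζ‖⁻¹ * ‖nv v (φ (y₀ + ζ • w + x • a)) - nv v (φ (y₀ + x • a))‖ ≤ ‖ζ‖⁻¹ * (C * (‖ζ‖ * ‖w‖)) := mul_le_mul_of_nonneg_left h3 (by positivity)
    _ = C * ‖w‖ := by field_simp

/-- small parameters -/
theorem ev_small {𝒰 : Filter (ℂ × ℂ)} (t1 : Tendsto (fun n : ℂ × ℂ => n.1) 𝒰 (𝓝[≠] 0)) (t2 : Tendsto (fun n : ℂ × ℂ => n.2) 𝒰 (𝓝[≠] 0)) (w : Vd (k + 1)) {s : ℝ} (hs : 0 < s) :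
    ∀ᶠ n : ℂ × ℂ in 𝒰, (n.1 ≠ 0 ∧ ‖n.1 • w‖ < s) ∧ n.2 ≠ 0 ∧ ‖n.2 • w‖ < s := by
  have one : ∀ p : ℂ × ℂ → ℂ, Tendsto p 𝒰 (𝓝[≠] 0) → ∀ᶠ n : ℂ × ℂ in 𝒰, p n ≠ 0 ∧ ‖p n • w‖ < s := by
    intro p hp
    have h1 : ∀ᶠ n : ℂ × ℂ in 𝒰, p n ≠ 0 := hp.eventually (eventually_mem_nhdsWithin.mono fun z hz => hz)
    have h2 : Tendsto (fun n => ‖p n • w‖) 𝒰 (𝓝 0) := by
      have := ((hp.mono_right nhdsWithin_le_nhds).smul_const w).norm
      rwa [zero_smul, norm_zero] at this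
    exact h1.and (h2.eventually (gt_mem_nhds hs))
  exact (one _ t1).and (one _ t2)

/-- the combination of the three curves is bounded and linear in the limit -/
theorem cmb_dq (S : DA X Λ u D B Bad a Γ W α c₀ C₀ ρ δ) (hS : Shs X Λ u D a b ⊤ SS) (hL : Lps D SS) {φ : Vd (k + 1) → MN N} (hφ : φ ∈ SS) (y₀ w : Vd (k + 1))
    {𝒰 : Ultrafilter (ℂ × ℂ)} (t1 : Tendsto (fun n : ℂ × ℂ => n.1) 𝒰 (𝓝[≠] 0)) (t2 : Tendsto (fun n : ℂ × ℂ => n.2) 𝒰 (𝓝[≠] 0)) :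
    Cmb X Λ u D a 𝒰 (yy y₀ w) y₀ (fun i n z => φ (yy y₀ w i n + z • a)) (fun z => φ (y₀ + z • a)) (fun n i _ => cc n i) := by
  have hT := mem_tb_top b
  have ty : ∀ i, Tendsto (yy y₀ w i) 𝒰 (𝓝 y₀) := by
    have one : ∀ p : ℂ × ℂ → ℂ, Tendsto p 𝒰 (𝓝[≠] 0) → Tendsto (fun n => y₀ + p n • w) 𝒰 (𝓝 y₀) := by
      intro p hp
      have := (tendsto_const_nhds (x := y₀)).add ((hp.mono_right nhdsWithin_le_nhds).smul_const w)
      rwa [zero_smul, add_zero] at this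
    intro i
    fin_cases i
    · exact tendsto_const_nhds
    · exact one _ t1
    · exact one _ t2
  have ha := S.lc.norm
  refine ⟨ty, fun i => Eventually.of_forall fun n => (hS.sht φ hφ).line _ (hT _), (hS.sht φ hφ).line _ (hT _),
    fun i => hS.lm hφ (fun n => hT _) (hT _) (ty i), Eventually.of_forall fun n i => differentiable_const _, ?_, ?_⟩
  · intro x hx v hv hv'
    obtain ⟨δ', hδ', hg⟩ := S.geo.exists_gd hx
    obtain ⟨r, C, hr, hC, h⟩ := chart_lip hL hδ'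
    have h' := h φ hφ _ hg v hv hv'
    refine ⟨r / 2, C * ‖w‖ + C * ‖w‖, by linarith, ?_⟩
    filter_upwards [ev_small t1 t2 w (half_pos hr)] with n hn x' hx'
    rw [mem_ball, dist_eq_norm] at hx'
    have e1 : y₀ + x' • a - (y₀ + x • a) = (x' - x) • a := by rw [sub_smul]; abel
    have e2 : ∀ ζ : ℂ, y₀ + ζ • w + x' • a - (y₀ + x • a) = ζ • w + (x' - x) • a := by
      intro ζ
      rw [sub_smul]
      abel
    have n1 : ‖(x' - x) • a‖ < r / 2 := by rwa [norm_smul, ha, mul_one]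
    have n2 : ∀ ζ : ℂ, ‖ζ • w‖ < r / 2 → ‖y₀ + ζ • w + x' • a - (y₀ + x • a)‖ ≤ r := by
      intro ζ hζ
      rw [e2]
      refine (norm_add_le _ _).trans ?_
      linarith
    have n3 : ‖y₀ + x' • a - (y₀ + x • a)‖ ≤ r := by
      rw [e1]
      linarith
    rw [cX_eq]
    exact (norm_sub_le _ _).trans (add_le_add (qv_bound h' hn.1.1 n3 (n2 _ hn.1.2)) (qv_bound h' hn.2.1 n3 (n2 _ hn.2.2)))
  · intro x hx v hv hv' F hF ε hε
    obtain ⟨δ', hδ', hg⟩ := S.geo.exists_gd hx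
    obtain ⟨r, C, hr, hC, h⟩ := chart_lip hL hδ'
    have h' := h φ hφ _ hg v hv hv'
    set L := fderiv ℂ F (v, y₀ + x • a) with hLd
    -- the error of the linear approximation
    set η : ℝ := ε / (2 * ((C + 1) * ‖w‖) + 1) with hη
    have hK : 0 ≤ (C + 1) * ‖w‖ := by positivity
    have hη0 : 0 < η := by positivity
    have hηe : 2 * (η * ((C + 1) * ‖w‖)) ≤ ε := by
      have h1 : η * (2 * ((C + 1) * ‖w‖) + 1) = ε := by
        rw [hη]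
        field_simp
      nlinarith
    obtain ⟨τ, hτ, hst⟩ : ∃ τ : ℝ, 0 < τ ∧ ∀ P P' : EN N × Vd (k + 1), dist P (v, y₀ + x • a) < τ → dist P' (v, y₀ + x • a) < τ → ‖F P - F P' - L (P - P')‖ ≤ η * ‖P - P'‖ := by
      have h1 := (hF.hasStrictFDerivAt.isLittleO).def hη0
      obtain ⟨τ, hτ, h2⟩ := Metric.eventually_nhds_iff.1 h1
      refine ⟨τ, hτ, fun P P' hP hP' => ?_⟩
      exact h2 (y := (P, P')) (by rw [Prod.dist_eq]; exact max_lt hP hP')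
    have hC1 : 0 < C + 1 := by linarith
    set t : ℝ := min (r / 2) (τ / (4 * (C + 1))) with ht
    have ht0 : 0 < t := lt_min (by linarith) (by positivity)
    have ht1 : t ≤ r / 2 := min_le_left _ _
    have ht2 : (C + 1) * (2 * t) < τ := by
      have h1 : t ≤ τ / (4 * (C + 1)) := min_le_right _ _
      rw [le_div_iff₀ (by positivity)] at h1
      linarith
    refine ⟨t, ht0, ?_⟩
    filter_upwards [ev_small t1 t2 w ht0] with n hn x' hx'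
    rw [mem_ball, dist_eq_norm] at hx'
    have e1 : y₀ + x' • a - (y₀ + x • a) = (x' - x) • a := by rw [sub_smul]; abel
    have n1 : ‖(x' - x) • a‖ < t := by rwa [norm_smul, ha, mul_one]
    -- points near the centre
    have near : ∀ y : Vd (k + 1), ‖y - (y₀ + x • a)‖ ≤ 2 * t → dist ((nv v (φ y), y) : EN N × Vd (k + 1)) (v, y₀ + x • a) < τ := by
      intro y hy
      have h1 := h' (y₀ + x • a) y (by rw [sub_self, norm_zero]; exact hr.le) (hy.trans (by linarith))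
      rw [← hv', nv_self hv] at h1
      have h2 : 0 ≤ ‖y - (y₀ + x • a)‖ := norm_nonneg _
      rw [Prod.dist_eq]
      refine max_lt ?_ ?_
      · show dist (nv v (φ y)) v < τ
        rw [dist_eq_norm]
        refine lt_of_le_of_lt h1 (lt_of_le_of_lt ?_ ht2)
        nlinarith
      · show dist y (y₀ + x • a) < τ
        rw [dist_eq_norm]
        refine lt_of_le_of_lt hy (lt_of_le_of_lt ?_ ht2)
        nlinarith
    have m0 : ‖y₀ + x' • a - (y₀ + x • a)‖ ≤ 2 * t := by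
      rw [e1]
      linarith
    have key : ∀ ζ : ℂ, ζ ≠ 0 → ‖ζ • w‖ < t →
        ‖ζ⁻¹ * (F (nv v (φ (y₀ + ζ • w + x' • a)), y₀ + ζ • w + x' • a) - F (nv v (φ (y₀ + x' • a)), y₀ + x' • a)) - L (qv φ a w y₀ v ζ x', w)‖ ≤ η * ((C + 1) * ‖w‖) := by
      intro ζ hζ0 hζ
      have e2 : y₀ + ζ • w + x' • a - (y₀ + x • a) = ζ • w + (x' - x) • a := by
        rw [sub_smul]
        abel
      have m1 : ‖y₀ + ζ • w + x' • a - (y₀ + x • a)‖ ≤ 2 * t := by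
        rw [e2]
        refine (norm_add_le _ _).trans ?_
        linarith
      have h1 := hst _ _ (near _ m1) (near _ m0)
      have h2 := h' _ _ (m0.trans (by linarith)) (m1.trans (by linarith))
      have e3 : y₀ + ζ • w + x' • a - (y₀ + x' • a) = ζ • w := by abel
      rw [e3] at h2
      have hζ' : 0 < ‖ζ‖ := norm_pos_iff.2 hζ0
      have h3 : ‖((nv v (φ (y₀ + ζ • w + x' • a)), y₀ + ζ • w + x' • a) : EN N × Vd (k + 1)) - (nv v (φ (y₀ + x' • a)), y₀ + x' • a)‖ ≤ (C + 1) * (‖ζ‖ * ‖w‖) := by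
        rw [Prod.mk_sub_mk, e3, Prod.norm_mk, ← norm_smul]
        have h4 : 0 ≤ ‖ζ • w‖ := norm_nonneg _
        refine max_le (h2.trans ?_) ?_ <;> nlinarith
      have e4 : ζ⁻¹ * (F (nv v (φ (y₀ + ζ • w + x' • a)), y₀ + ζ • w + x' • a) - F (nv v (φ (y₀ + x' • a)), y₀ + x' • a)) - L (qv φ a w y₀ v ζ x', w) =
          ζ⁻¹ * (F (nv v (φ (y₀ + ζ • w + x' • a)), y₀ + ζ • w + x' • a) - F (nv v (φ (y₀ + x' • a)), y₀ + x' • a) -
            L (((nv v (φ (y₀ + ζ • w + x' • a)), y₀ + ζ • w + x' • a) : EN N × Vd (k + 1)) - (nv v (φ (y₀ + x' • a)), y₀ + x' • a))) := by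
        have h5 : ((qv φ a w y₀ v ζ x', w) : EN N × Vd (k + 1)) = ζ⁻¹ • (((nv v (φ (y₀ + ζ • w + x' • a)), y₀ + ζ • w + x' • a) : EN N × Vd (k + 1)) - (nv v (φ (y₀ + x' • a)), y₀ + x' • a)) := by
          rw [Prod.mk_sub_mk, e3, Prod.smul_mk, smul_smul, inv_mul_cancel₀ hζ0, one_smul]
          rfl
        rw [h5, map_smul, smul_eq_mul]
        ring
      rw [e4, norm_mul, norm_inv]
      calc ‖ζ‖⁻¹ * _ ≤ ‖ζ‖⁻¹ * (η * ((C + 1) * (‖ζ‖ * ‖w‖))) := by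
            refine mul_le_mul_of_nonneg_left (h1.trans ?_) (by positivity)
            exact mul_le_mul_of_nonneg_left h3 hη0.le
        _ = η * ((C + 1) * ‖w‖) := by field_simp
    have k1 := key n.1 hn.1.1 hn.1.2
    have k2 := key n.2 hn.2.1 hn.2.2
    rw [cX_eq]
    have e5 : L (qv φ a w y₀ v n.1 x' - qv φ a w y₀ v n.2 x', 0) = L (qv φ a w y₀ v n.1 x', w) - L (qv φ a w y₀ v n.2 x', w) := by
      rw [← map_sub, Prod.mk_sub_mk, sub_self]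
    rw [e5]
    simp only [Fin.sum_univ_three, cc, yy, Matrix.cons_val_zero, Matrix.cons_val_one, Matrix.cons_val]
    have e6 : (n.2⁻¹ - n.1⁻¹) * F (nv v (φ (y₀ + x' • a)), y₀ + x' • a) + n.1⁻¹ * F (nv v (φ (y₀ + n.1 • w + x' • a)), y₀ + n.1 • w + x' • a) +
          -n.2⁻¹ * F (nv v (φ (y₀ + n.2 • w + x' • a)), y₀ + n.2 • w + x' • a) - (L (qv φ a w y₀ v n.1 x', w) - L (qv φ a w y₀ v n.2 x', w)) =
        (n.1⁻¹ * (F (nv v (φ (y₀ + n.1 • w + x' • a)), y₀ + n.1 • w + x' • a) - F (nv v (φ (y₀ + x' • a)), y₀ + x' • a)) - L (qv φ a w y₀ v n.1 x', w)) -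
        (n.2⁻¹ * (F (nv v (φ (y₀ + n.2 • w + x' • a)), y₀ + n.2 • w + x' • a) - F (nv v (φ (y₀ + x' • a)), y₀ + x' • a)) - L (qv φ a w y₀ v n.2 x', w)) := by
      ring
    rw [e6]
    refine (norm_sub_le _ _).trans ?_
    linarith

/-- the bound of the combination over `Gd D δ'` -/
theorem dq_bound (hL : Lps D SS) {φ : Vd (k + 1) → MN N} (hφ : φ ∈ SS) (y₀ w : Vd (k + 1))
    {𝒰 : Ultrafilter (ℂ × ℂ)} (t1 : Tendsto (fun n : ℂ × ℂ => n.1) 𝒰 (𝓝[≠] 0)) (t2 : Tendsto (fun n : ℂ × ℂ => n.2) 𝒰 (𝓝[≠] 0)) (δ' : ℝ) (hδ' : 0 < δ') :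
    ∃ C : ℝ, ∀ x : ℂ, y₀ + x • a ∈ Gd D δ' → ∀ v : EN N, ‖v‖ = 1 → pr v = φ (y₀ + x • a) → ∀ᶠ n in (𝒰 : Filter (ℂ × ℂ)),
      ‖cX (fun n i (_ : ℂ) => cc n i) (fun i n z => φ (yy y₀ w i n + z • a)) v n x‖ ≤ C * Real.exp (0 * ‖x‖ ^ 2) := by
  obtain ⟨r, C, hr, hC, h⟩ := chart_lip hL hδ'
  refine ⟨C * ‖w‖ + C * ‖w‖, fun x hg v hv hv' => ?_⟩
  have h' := h φ hφ _ hg v hv hv'
  filter_upwards [ev_small t1 t2 w hr] with n hn
  have n2 : ∀ ζ : ℂ, ‖ζ • w‖ < r → ‖y₀ + ζ • w + x • a - (y₀ + x • a)‖ ≤ r := by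
    intro ζ hζ
    have e : y₀ + ζ • w + x • a - (y₀ + x • a) = ζ • w := by abel
    rw [e]
    exact hζ.le
  have n3 : ‖y₀ + x • a - (y₀ + x • a)‖ ≤ r := by
    rw [sub_self, norm_zero]
    exact hr.le
  rw [cX_eq, zero_mul, Real.exp_zero, mul_one]
  exact (norm_sub_le _ _).trans (add_le_add (qv_bound h' hn.1.1 n3 (n2 _ hn.1.2)) (qv_bound h' hn.2.1 n3 (n2 _ hn.2.2)))

/-- complex differentiability on complex lines, from (Z) and (M) for the sheet `φ` -/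
theorem sheet_dif_of (S : DA X Λ u D B Bad a Γ W α c₀ C₀ ρ δ) (hS : Shs X Λ u D a b ⊤ SS) (hL : Lps D SS) {φ : Vd (k + 1) → MN N} (hφ : φ ∈ SS) {y₀ : Vd (k + 1)} {v : EN N}
    (hv : ‖v‖ = 1) (hv' : pr v = φ y₀) (w : Vd (k + 1))
    (hZM : ∀ 𝒰 : Ultrafilter (ℂ × ℂ), Cmb X Λ u D a 𝒰 (yy y₀ w) y₀ (fun i n z => φ (yy y₀ w i n + z • a)) (fun z => φ (y₀ + z • a)) (fun n i _ => cc n i) →
      (∀ δ' : ℝ, 0 < δ' → ∃ C : ℝ, ∀ x : ℂ, y₀ + x • a ∈ Gd D δ' → ∀ v : EN N, ‖v‖ = 1 → pr v = φ (y₀ + x • a) → ∀ᶠ n in (𝒰 : Filter (ℂ × ℂ)),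
        ‖cX (fun n i (_ : ℂ) => cc n i) (fun i n z => φ (yy y₀ w i n + z • a)) v n x‖ ≤ C * Real.exp (0 * ‖x‖ ^ 2)) →
      ∀ v : EN N, ‖v‖ = 1 → pr v = φ (y₀ + (0 : ℂ) • a) →
        Tendsto (fun n => cX (fun n i (_ : ℂ) => cc n i) (fun i n z => φ (yy y₀ w i n + z • a)) v n 0) 𝒰 (𝓝 0)) :
    DifferentiableAt ℂ (fun ζ : ℂ => nv v (φ (y₀ + ζ • w))) 0 := by
  set Q : ℂ → EN N := fun ζ => ζ⁻¹ • (nv v (φ (y₀ + ζ • w)) - nv v (φ y₀)) with hQ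
  have key : Tendsto (fun n : ℂ × ℂ => Q n.1 - Q n.2) (𝓝[≠] 0 ×ˢ 𝓝[≠] 0) (𝓝 0) := by
    rw [Filter.tendsto_iff_ultrafilter]
    intro 𝒰 h𝒰
    have t1 : Tendsto (fun n : ℂ × ℂ => n.1) 𝒰 (𝓝[≠] 0) := tendsto_fst.mono_left h𝒰
    have t2 : Tendsto (fun n : ℂ × ℂ => n.2) 𝒰 (𝓝[≠] 0) := tendsto_snd.mono_left h𝒰
    have h1 := hZM 𝒰 (cmb_dq S hS hL hφ y₀ w t1 t2) (dq_bound hL hφ y₀ w t1 t2) v hv (by rw [zero_smul, add_zero]; exact hv')
    refine h1.congr fun n => ?_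
    rw [cX_eq]
    simp only [qv, hQ, zero_smul, add_zero]
  have hcau : Cauchy (map Q (𝓝[≠] (0 : ℂ))) := by
    rw [cauchy_map_iff]
    refine ⟨inferInstance, ?_⟩
    rw [tendsto_uniformity_iff_dist_tendsto_zero]
    have h1 := key.norm
    rw [norm_zero] at h1
    refine h1.congr fun n => ?_
    rw [dist_eq_norm]
  obtain ⟨q, hq⟩ := cauchy_map_iff_exists_tendsto.1 hcau
  have hder : HasDerivAt (fun ζ : ℂ => nv v (φ (y₀ + ζ • w))) q 0 := by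
    rw [hasDerivAt_iff_tendsto_slope_zero]
    refine hq.congr fun ζ => ?_
    simp only [hQ, zero_add, zero_smul, add_zero]
  exact hder.differentiableAt

end Pool.Agent.G4.R
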