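import Pool.Agent.G4.R.StepL
import Pool.Agent.G4.R.CmD
import Pool.Agent.G4.A.CmF

/-!
# G4 R Step: all divided differences of the sheets are bounded

`ddb_zero`: order `0`.  `ddb_step`: let `DDb j` hold for `j ≤ m` and fail for `m + 1`.  For every `n` there are nodes `σ n` of size `≤ 1 / (n + 1)` and `Nb n ≥ n`, a bound of the divided differences over the core
which is nearly attained at `y n`, `φ n`, in the chart `nv (v n)` (`step_seq`); along an ultrafilter `φ n = φ₀`, `y n → y₀`, `v n → v₀` (`step_lim`).  By (Z) (`cmb_null`) for the combination of the divided differences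
(`cmb_dd`, `dd_bd4`): the divided difference at `y n` in the chart `nv v₀`, divided by `Nb n`, tends to `0`; change of the chart: `Nb n / 2 ≤ K (o (Nb n) + 1)`, contradiction.
-/

set_option autoImplicit false

open Topology Filter Metric

namespace Pool.Agent.G4.R

open Pool.Agent.H36.BP (EN fs wd)
open Pool.Agent.H14.PP (IsCone CurveAt Tan)
open Pool.Agent.H62.EF (MN pr pr_smul)
open Pool.Agent.AD (Vd Chart Charts IsGerm)
open Pool.Agent.TG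
open Pool.Agent.G3
open Pool.Agent.G3.A (Ba Hc Dec Sepa Tht Frm NL Lm CRL Tb ToE CE Sht)
open Pool.Agent.G3.R (Prm Shs DDb nv_near dd dw dd_congr Nod dd_zero dd_nv inner_near)
open Pool.Agent.G3.C (Gc nv nd nv_pr)
open Pool.Agent.G4.A

variable {N k : ℕ} {X : Set (EN N)} {Λ : AddSubgroup (Vd (k + 1))} {u : EN N → Vd (k + 1)} {D B Bad : Set (Vd (k + 1))} {a b w : Vd (k + 1)} {E : Submodule ℝ (Vd (k + 1))}
  {Γ : AddSubgroup (Vd (k + 1))} {J rW : ℕ} {W : Fin rW → Vd (k + 1) →L[ℂ] ℂ} {SS : Set (Vd (k + 1) → MN N)} {α : Fin J → VForm X Λ u} {c₀ C₀ ρ δ : ℝ}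

theorem ddb_zero (S : DA X Λ u D B Bad a Γ W α c₀ C₀ ρ δ) (hS : Shs X Λ u D a b E SS) (hw : w ∈ E) : DDb D (Tb b E) SS w 0 := ddb_zero' S hS hw

theorem ddb_step (S : DA X Λ u D B Bad a Γ W α c₀ C₀ ρ δ) (hS : Shs X Λ u D a b E SS) (hw : w ∈ E) {m : ℕ} (hm : ∀ j ≤ m, DDb D (Tb b E) SS w j) : DDb D (Tb b E) SS w (m + 1) := by
  by_contra hno
  obtain ⟨R, hseq⟩ := step_seq S hS hw hm hno
  choose σ Nb φ y v hσ hNb hNb1 hcore hφ hyT hyC hyR hv hvφ hbig using hseq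
  have hδ := S.lc.δ_pos
  have hX := S.geo.cone
  have hL := S.lg
  set 𝒰 : Ultrafilter ℕ := hyperfilter ℕ with h𝒰d
  have h𝒰 : (𝒰 : Filter ℕ) ≤ atTop := by
    rw [← Nat.cofinite_eq_atTop]
    exact hyperfilter_le_cofinite
  obtain ⟨φ₀, y₀, v₀, hφ₀, hev, hyt, hy₀T, hy₀C, hvt, hv₀, hv₀φ⟩ := step_lim S hS 𝒰 hφ hyT hyC hyR hv hvφ
  have hy₀D : y₀ ∉ D := gd_notMem (by linarith) hy₀C
  have hrn : Tendsto (fun n : ℕ => 1 / ((n : ℝ) + 1)) 𝒰 (𝓝 0) := tendsto_one_div_add_atTop_nhds_zero_nat.mono_left h𝒰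
  have hnat : Tendsto (fun n : ℕ => (n : ℝ)) (𝒰 : Filter ℕ) atTop := tendsto_natCast_atTop_atTop.mono_left h𝒰
  have hNbt : Tendsto Nb (𝒰 : Filter ℕ) atTop := tendsto_atTop_mono hNb hnat
  have hgd : Dbd D (Tb b E) w 𝒰 m φ₀ σ Nb := by
    intro δ' hδ'
    obtain ⟨r, K, hr, hK, h1⟩ := core_to_gd S hS hw hm hδ'
    refine ⟨K, hK, ?_⟩
    filter_upwards [hrn.eventually_lt_const hr] with n hn y' hy' hyD' v' hv' hvφ'
    exact h1 (σ n) (Nb n) ((hσ n).mono le_rfl hn.le) (hNb1 n) (hcore n) φ₀ hφ₀ y' hy' hyD' v' hv' hvφ'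
  have hC := cmb_dd S hS hw hm hφ₀ hσ hrn hNb1 hNbt hgd hyT hyt hy₀T
  have hb := fun δ' hδ' => dd_bd4 (a := a) hX hL hS hw hm hφ₀ hσ hrn hNb1 hgd hyT hyt hy₀T δ' hδ'
  have h1 : Tendsto (fun n => cX (fun n i (_ : ℂ) => cd m σ Nb n i) (fun i n z => φ₀ (yd m y σ w i n + z • a)) v₀ n 0) 𝒰 (𝓝 0) :=
    cmb_null S hC le_rfl S.c_pos hb (x := 0) (by rwa [zero_smul, add_zero]) hv₀ (by rw [hv₀φ, zero_smul, add_zero]) (w := fun _ => 0) tendsto_const_nhds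
  -- the change of the chart
  obtain ⟨r₁, K₁, hr₁, hK₁, h₁⟩ := dd_chg hX hL hS hw hm (δ' := 2 * δ) (κ := 1 / 2) (by positivity) (by norm_num)
  obtain ⟨r₂, C₂, hr₂, hC₂, h₂⟩ := dd_loc hX hL hS hw hm hφ₀ hσ hrn hNb1 hgd (δ' := 2 * δ) (by positivity)
  obtain ⟨r₃, K₃, ε₃, hr₃, hK₃, hε₃, h₃⟩ := dd_nv (N := N) m (κ := 1 / 2) (C := C₂) (by norm_num) hC₂.le
  obtain ⟨r₄, hr₄, h₄⟩ := hS.unif4 hL (show 0 < 2 * δ by positivity) hε₃
  have hw1 : 0 < ‖w‖ + 1 := by positivity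
  have e1 : ∀ᶠ n : ℕ in (𝒰 : Filter ℕ), 1 / ((n : ℝ) + 1) < min r₃ (r₄ / (2 * (‖w‖ + 1))) := hrn.eventually_lt_const (lt_min hr₃ (by positivity))
  have e2 : ∀ᶠ n in (𝒰 : Filter ℕ), dist (y n) y₀ < min r₂ (r₄ / 2) := hyt.eventually (ball_mem_nhds y₀ (lt_min hr₂ (by positivity)))
  have e3 : ∀ᶠ n in (𝒰 : Filter ℕ), 1 / 2 ≤ ‖(inner ℂ (v n) v₀ : ℂ)‖ := by
    have h5 : Tendsto (fun n => (inner ℂ (v n) v₀ : ℂ)) 𝒰 (𝓝 (inner ℂ v₀ v₀ : ℂ)) := hvt.inner tendsto_const_nhds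
    have h6 : ‖(inner ℂ v₀ v₀ : ℂ)‖ = 1 := by
      rw [inner_self_eq_norm_sq_to_K, hv₀]
      simp
    have h7 := h5.norm
    rw [h6] at h7
    exact h7.eventually_const_le (by norm_num)
  have e4 := h1.norm.eventually_lt_const (show ‖(0 : EN N)‖ < 1 / (8 * K₃) by rw [norm_zero]; positivity)
  have e5 := hNbt.eventually_gt_atTop (8 * K₃)
  obtain ⟨n, h2n, h1n, h2n', h3n, h4n, h5n, hn⟩ := (h₂.and (e1.and (e2.and (e3.and (e4.and (e5.and hev)))))).exists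
  rw [dist_eq_norm] at h2n'
  have hlow := (h2n y₀ hy₀T hy₀C v₀ hv₀ hv₀φ (y n) (hyT n) (h2n'.le.trans (min_le_left _ _))).1
  have hNpos : 0 < Nb n := lt_of_lt_of_le one_pos (hNb1 n)
  have h6 := (h₃ (v n) v₀ (hv n) hv₀ h3n (σ n) (fun s : ℝ => φ₀ (y n + (s : ℂ) • w)) ((hσ n).mono le_rfl (h1n.le.trans (min_le_left _ _))) (fun i hi => ?_) hlow).2
  · rw [cX_dd, norm_smul, norm_inv, Complex.norm_real, Real.norm_of_nonneg hNpos.le, inv_mul_lt_iff₀ hNpos, zero_smul, add_zero] at h4n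
    have h7 := hbig n
    rw [hn] at h7
    unfold sz at h7
    have h8 := h7.trans h6
    set d : ℝ := ‖dd (m + 1) (σ n) fun s : ℝ => nv v₀ (φ₀ (y n + (s : ℂ) • w))‖ with hd
    have h9 : K₃ * d ≤ Nb n / 8 := by
      have h10 : K₃ * d ≤ K₃ * (Nb n * (1 / (8 * K₃))) := mul_le_mul_of_nonneg_left h4n.le hK₃.le
      refine h10.trans (le_of_eq ?_)
      field_simp
    have h10 : Nb n / 2 ≤ K₃ * d + K₃ := by linarith [h8, mul_add K₃ d 1]
    linarith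
  · have hyi : y n + ((σ n i : ℝ) : ℂ) • w ∈ Tb b E := tb_add (hyT n) (smul_mem_E hw _)
    obtain ⟨x, hxX, hpx, -⟩ := hS.fb4 hφ₀ hyi
    refine ⟨x, fun h0 => hX.zero_notMem (h0 ▸ hxX), hpx.symm, ?_⟩
    rw [hpx, hv₀φ]
    refine h₄ φ₀ hφ₀ y₀ hy₀T hy₀C _ hyi ?_
    have e : y n + ((σ n i : ℝ) : ℂ) • w - y₀ = (y n - y₀) + ((σ n i : ℝ) : ℂ) • w := by abel
    rw [e]
    refine (norm_add_le _ _).trans ?_
    have h7 : ‖((σ n i : ℝ) : ℂ) • w‖ ≤ r₄ / 2 := by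
      refine (norm_smul_w (((hσ n).le i hi).trans (h1n.le.trans (min_le_right _ _))) w).trans ?_
      rw [div_mul_eq_mul_div, div_le_iff₀ (by positivity)]
      nlinarith [norm_nonneg w]
    have h8 := h2n'.le.trans (min_le_right _ _)
    linarith

theorem ddb (S : DA X Λ u D B Bad a Γ W α c₀ C₀ ρ δ) (hS : Shs X Λ u D a b E SS) (hw : w ∈ E) (m : ℕ) : DDb D (Tb b E) SS w m := by
  induction m using Nat.strong_induction_on with
  | _ m ih =>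
    rcases m with _ | m
    · exact ddb_zero S hS hw
    · exact ddb_step S hS hw fun j hj => ih j (by omega)

end Pool.Agent.G4.R
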