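import Pool.Agent.G4.R.StepA

/-!
# G4 R StepL: the limit of the sequences of the proof by contradiction
-/

set_option autoImplicit false

open Topology Filter Metric

namespace Pool.Agent.G4.R

open Pool.Agent.H36.BP (EN fs wd)
open Pool.Agent.H14.PP (IsCone CurveAt Tan)
open Pool.Agent.H62.EF (MN pr)
open Pool.Agent.AD (Vd Chart Charts IsGerm)
open Pool.Agent.TG
open Pool.Agent.G3
open Pool.Agent.G3.R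
open Pool.Agent.G3.C (Gc HP nv nd nv_pr)
open Pool.Agent.G3.A (Ba Hc Dec Sepa Tht Frm NL Lm CRL Tb ToE CE Sht)
open Pool.Agent.G4.A

variable {N k : ℕ} {X : Set (EN N)} {Λ : AddSubgroup (Vd (k + 1))} {u : EN N → Vd (k + 1)} {D B Bad : Set (Vd (k + 1))} {a b w : Vd (k + 1)} {E : Submodule ℝ (Vd (k + 1))}
  {SS : Set (Vd (k + 1) → MN N)} {Γ : AddSubgroup (Vd (k + 1))} {J rW : ℕ} {W : Fin rW → Vd (k + 1) →L[ℂ] ℂ} {α : Fin J → VForm X Λ u} {c₀ C₀ ρ δ : ℝ}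

theorem co_closed (D Bad : Set (Vd (k + 1))) (δ ρ : ℝ) : IsClosed (Co D Bad δ ρ) := gd_closed D _

theorem step_lim (S : DA X Λ u D B Bad a Γ W α c₀ C₀ ρ δ) (hS : Shs X Λ u D a b E SS) (𝒰 : Ultrafilter ℕ) {R : ℝ} {φ : ℕ → Vd (k + 1) → MN N} {y : ℕ → Vd (k + 1)} {v : ℕ → EN N}
    (hφ : ∀ n, φ n ∈ SS) (hyT : ∀ n, y n ∈ Tb b E) (hyC : ∀ n, y n ∈ Co D Bad δ ρ) (hyR : ∀ n, ‖y n‖ ≤ R) (hv : ∀ n, ‖v n‖ = 1) (hvφ : ∀ n, pr (v n) = φ n (y n)) :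
    ∃ (φ₀ : Vd (k + 1) → MN N) (y₀ : Vd (k + 1)) (v₀ : EN N), φ₀ ∈ SS ∧ (∀ᶠ n in (𝒰 : Filter ℕ), φ n = φ₀) ∧ Tendsto y 𝒰 (𝓝 y₀) ∧ y₀ ∈ Tb b E ∧ y₀ ∈ Co D Bad δ ρ ∧
      Tendsto v 𝒰 (𝓝 v₀) ∧ ‖v₀‖ = 1 ∧ pr v₀ = φ₀ y₀ := by
  obtain ⟨φ₀, hφ₀, hev⟩ : ∃ φ₀ ∈ SS, ∀ᶠ n in (𝒰 : Filter ℕ), φ n = φ₀ := by
    have h1 : (⋃ ψ ∈ SS, {n | φ n = ψ}) ∈ 𝒰 := by
      have h2 : (⋃ ψ ∈ SS, {n | φ n = ψ}) = Set.univ := by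
        ext n
        simp [hφ n]
      rw [h2]
      exact Filter.univ_mem
    obtain ⟨ψ, hψ, h2⟩ := (Ultrafilter.finite_biUnion_mem_iff hS.fin).1 h1
    exact ⟨ψ, hψ, h2⟩
  obtain ⟨y₀, -, hy₀⟩ := (isCompact_closedBall (0 : Vd (k + 1)) R).ultrafilter_le_nhds (𝒰.map y) (by
    rw [Ultrafilter.coe_map, le_principal_iff, mem_map]
    refine univ_mem' fun n => ?_
    simpa using hyR n)
  obtain ⟨v₀, hv₀, hv₀'⟩ := (isCompact_sphere (0 : EN N) 1).ultrafilter_le_nhds (𝒰.map v) (by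
    rw [Ultrafilter.coe_map, le_principal_iff, mem_map]
    refine univ_mem' fun n => ?_
    simpa using hv n)
  have hyt : Tendsto y 𝒰 (𝓝 y₀) := hy₀
  have hvt : Tendsto v 𝒰 (𝓝 v₀) := hv₀'
  have hv₀1 : ‖v₀‖ = 1 := by simpa using hv₀
  have hv₀0 : v₀ ≠ 0 := by
    rintro rfl
    rw [norm_zero] at hv₀1
    exact zero_ne_one hv₀1
  have hy₀T : y₀ ∈ Tb b E := (tb_closed b E).mem_of_tendsto hyt (Eventually.of_forall hyT)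
  have hy₀C : y₀ ∈ Co D Bad δ ρ := (co_closed D Bad δ ρ).mem_of_tendsto hyt (Eventually.of_forall hyC)
  refine ⟨φ₀, y₀, v₀, hφ₀, hev, hyt, hy₀T, hy₀C, hvt, hv₀1, ?_⟩
  have hy₀D : y₀ ∉ D := gd_notMem (by linarith [S.lc.δ_pos]) hy₀C
  have h1 : Tendsto (fun n => pr (v n)) 𝒰 (𝓝 (pr v₀)) := (Pool.Agent.H62.EF.continuousAt_pr hv₀0).tendsto.comp hvt
  have h2 : Tendsto (fun n => φ₀ (y n)) 𝒰 (𝓝 (φ₀ y₀)) :=
    ((hS.sht φ₀ hφ₀).cont y₀ hy₀T hy₀D).tendsto.comp (tendsto_nhdsWithin_iff.2 ⟨hyt, Eventually.of_forall hyT⟩)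
  refine tendsto_nhds_unique h1 (h2.congr' ?_)
  filter_upwards [hev] with n hn
  rw [hvφ n, hn]

end Pool.Agent.G4.R
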